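import Pool.Agent.R238.HB.One
import Pool.Agent.R238.HB.Geo

/-! MP_5a160e_an: the one-dimensional cycling region of the heavy-ball method can be strictly
smaller than the cycling region.  Q1 is answered in the negative: for some `0 < μ < L` there is a
tuning `(γ,β)` with a cycle of length `10` in dimension `4` but no cycle of any length `K ≥ 3` in
dimension `1`. -/

namespace Pool.Agent.Results.MP_5a160e_an.OneDimFails

open Pool.Agent.R238.HB

theorem result :
    (¬ ∀ μ L : ℝ, 0 < μ → μ < L → cycDim μ L 1 = cyc μ L) ∧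
    ∃ μ L γ β : ℝ, 0 < μ ∧ μ < L ∧
      (∃ x : ZMod 10 → E 4, IsCycle μ L γ β x) ∧ (γ, β) ∉ cycDim μ L 1 := by
  obtain ⟨z, r, β, n, M, P⟩ := exists_par
  have hm : 0 < 1 + β - M := by linarith [P.hm]
  have hn : 0 < n := by linarith [P.n1]
  have h4 := four P
  have h1 : ((1:ℝ), β) ∉ cycDim (1+β-M) (1+β-M+n) 1 := by
    rintro ⟨K, hK, x, hx⟩
    exact one P K hK x hx
  refine ⟨?_, 1+β-M, 1+β-M+n, 1, β, hm, by linarith, h4, h1⟩
  intro h
  have e := h (1+β-M) (1+β-M+n) hm (by linarith)
  apply h1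
  rw [e]
  exact ⟨4, by norm_num, 10, by norm_num, h4⟩

end Pool.Agent.Results.MP_5a160e_an.OneDimFails
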